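import Mathlib

/-!
# Divots of the difference-set size at `s (s - 1) - 1`

For every `s ≥ 200` and all large `n`, the distribution of `|S - S|` for a uniformly random subset
`S` of `{0, …, n-1}` has a divot at `s (s - 1) - 1`, which is never of the form `k (k - 1) + 3`.
-/

namespace Pool.Agent.Results.MP_d8403e_co.ExtraDivots

open Finset

/-- The interval `{0, …, n-1}`. -/
noncomputable def I (n : ℕ) : Finset ℤ := Finset.Ico 0 (n : ℤ)

/-- The difference set `S - S`. -/
def diffs (S : Finset ℤ) : Finset ℤ := (S ×ˢ S).image (fun p => p.1 - p.2)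

/-- The number of subsets of `{0, …, n-1}` with exactly `m` differences. -/
noncomputable def N (n m : ℕ) : ℕ := ((I n).powerset.filter (fun S => (diffs S).card = m)).card

/-- The probability that `|S - S| = m` for a uniformly random subset `S` of `{0, …, n-1}`. -/
noncomputable def P (n m : ℕ) : ℝ := (N n m : ℝ) / 2 ^ n

/-- `Q` has a divot at `i`: `Q i > 0` and `Q i` is smaller than both neighbouring nonzero
terms (zero terms are skipped, and both neighbours must exist). -/
def HasDivot (Q : ℕ → ℝ) (i : ℕ) : Prop :=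
  0 < Q i ∧ ∃ j j' : ℕ, j < i ∧ i < j' ∧ Q j ≠ 0 ∧ Q j' ≠ 0 ∧
    (∀ l, j < l → l < i → Q l = 0) ∧ (∀ l, i < l → l < j' → Q l = 0) ∧ Q i < Q j ∧ Q i < Q j'

/-! ### Pairs and positive differences -/

/-- Increasing pairs. -/
def pairs (S : Finset ℤ) : Finset (ℤ × ℤ) := (S ×ˢ S).filter (fun p => p.1 < p.2)

/-- The difference of a pair. -/
def df (p : ℤ × ℤ) : ℤ := p.2 - p.1

/-- Positive differences. -/
def Dp (S : Finset ℤ) : Finset ℤ := (pairs S).image df

lemma mem_pairs {S : Finset ℤ} {p : ℤ × ℤ} : p ∈ pairs S ↔ p.1 ∈ S ∧ p.2 ∈ S ∧ p.1 < p.2 := by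
  simp [pairs, and_assoc]

lemma pairs_mono {S T : Finset ℤ} (h : S ⊆ T) : pairs S ⊆ pairs T := by
  intro p hp
  rw [mem_pairs] at *
  exact ⟨h hp.1, h hp.2.1, hp.2.2⟩

lemma Dp_mono {S T : Finset ℤ} (h : S ⊆ T) : Dp S ⊆ Dp T :=
  Finset.image_subset_image (pairs_mono h)

lemma two_mul_card_pairs (S : Finset ℤ) : 2 * (pairs S).card = S.card * (S.card - 1) := by
  have h1 : S.offDiag = pairs S ∪ (pairs S).image Prod.swap := by
    ext ⟨a, b⟩
    simp only [mem_offDiag, mem_union, mem_pairs, mem_image, Prod.exists, Prod.swap_prod_mk,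
      Prod.mk.injEq]
    constructor
    · rintro ⟨ha, hb, hne⟩
      rcases lt_or_gt_of_ne hne with h | h
      · exact Or.inl ⟨ha, hb, h⟩
      · exact Or.inr ⟨b, a, ⟨hb, ha, h⟩, rfl, rfl⟩
    · rintro (⟨ha, hb, h⟩ | ⟨x, y, ⟨hx, hy, h⟩, rfl, rfl⟩)
      · exact ⟨ha, hb, h.ne⟩
      · exact ⟨hy, hx, h.ne'⟩
  have hdisj : Disjoint (pairs S) ((pairs S).image Prod.swap) := by
    rw [Finset.disjoint_left]
    rintro ⟨a, b⟩ h1 h2
    rw [mem_pairs] at h1
    obtain ⟨⟨x, y⟩, hxy, he⟩ := Finset.mem_image.mp h2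
    rw [mem_pairs] at hxy
    simp only [Prod.swap_prod_mk, Prod.mk.injEq] at he
    obtain ⟨rfl, rfl⟩ := he
    have := h1.2.2
    have := hxy.2.2
    simp only at *
    omega
  have h2 : (S.offDiag).card = 2 * (pairs S).card := by
    rw [h1, Finset.card_union_of_disjoint hdisj,
      Finset.card_image_of_injective _ Prod.swap_injective]
    ring
  rw [← h2, Finset.offDiag_card, Nat.mul_sub, mul_one]

lemma Dp_card_le (S : Finset ℤ) : (Dp S).card ≤ (pairs S).card := Finset.card_image_le

lemma Dp_pos {S : Finset ℤ} {x : ℤ} (h : x ∈ Dp S) : 0 < x := by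
  obtain ⟨p, hp, rfl⟩ := Finset.mem_image.mp h
  rw [mem_pairs] at hp
  unfold df
  omega

lemma card_diffs {S : Finset ℤ} (hS : S.Nonempty) : (diffs S).card = 2 * (Dp S).card + 1 := by
  have h1 : diffs S = (Dp S ∪ (Dp S).image (fun x => -x)) ∪ {0} := by
    ext x
    simp only [diffs, mem_image, mem_product, Prod.exists, mem_union, Dp, mem_pairs, df,
      mem_singleton]
    constructor
    · rintro ⟨a, b, ⟨ha, hb⟩, rfl⟩
      rcases lt_trichotomy a b with h | h | h
      · exact Or.inl (Or.inr ⟨b - a, ⟨a, b, ⟨ha, hb, h⟩, rfl⟩, by ring⟩)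
      · exact Or.inr (by omega)
      · exact Or.inl (Or.inl ⟨b, a, ⟨hb, ha, h⟩, rfl⟩)
    · rintro ((⟨a, b, ⟨ha, hb, _⟩, rfl⟩ | ⟨y, ⟨a, b, ⟨ha, hb, _⟩, rfl⟩, rfl⟩) | rfl)
      · exact ⟨b, a, ⟨hb, ha⟩, rfl⟩
      · exact ⟨a, b, ⟨ha, hb⟩, by ring⟩
      · obtain ⟨z, hz⟩ := hS
        exact ⟨z, z, ⟨hz, hz⟩, by ring⟩
  have hd1 : Disjoint (Dp S) ((Dp S).image (fun x => -x)) := by
    rw [Finset.disjoint_left]
    intro x hx hx'
    obtain ⟨y, hy, rfl⟩ := Finset.mem_image.mp hx'
    have := Dp_pos hx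
    have := Dp_pos hy
    omega
  have hd2 : Disjoint (Dp S ∪ (Dp S).image (fun x => -x)) {0} := by
    rw [Finset.disjoint_singleton_right, Finset.mem_union]
    rintro (h | h)
    · exact absurd (Dp_pos h) (lt_irrefl _)
    · obtain ⟨y, hy, he⟩ := Finset.mem_image.mp h
      have := Dp_pos hy
      omega
  rw [h1, Finset.card_union_of_disjoint hd2, Finset.card_union_of_disjoint hd1,
    Finset.card_image_of_injective _ neg_injective, Finset.card_singleton]
  ring

lemma card_le_card_diffs (S : Finset ℤ) : S.card ≤ (diffs S).card := by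
  rcases S.eq_empty_or_nonempty with rfl | ⟨z, hz⟩
  · simp
  · refine Finset.card_le_card_of_injOn (fun x => x - z) ?_ ?_
    · intro x hx
      exact Finset.mem_image.mpr ⟨(x, z), by simp at hx; simp [hx, hz], rfl⟩
    · intro x _ y _ h
      simpa using h

/-! ### Relations and closure -/

/-- Every nontrivial additive quadruple of `S` lies inside `A`. -/
def Inside (A S : Finset ℤ) : Prop :=
  ∀ a ∈ S, ∀ b ∈ S, ∀ c ∈ S, ∀ d ∈ S, a + b = c + d → a ≠ c → a ≠ d →
    a ∈ A ∧ b ∈ A ∧ c ∈ A ∧ d ∈ A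

lemma card_Dp_of_inside {A S : Finset ℤ} (hAS : A ⊆ S) (h : Inside A S) :
    (Dp S).card + (pairs A).card = (pairs S).card + (Dp A).card := by
  have hsub := pairs_mono hAS
  have huniq : ∀ p ∈ pairs S \ pairs A, ∀ q ∈ pairs S, df p = df q → p = q := by
    rintro ⟨x, y⟩ hp ⟨u, v⟩ hq he
    rw [Finset.mem_sdiff, mem_pairs, mem_pairs] at hp
    rw [mem_pairs] at hq
    obtain ⟨⟨hx, hy, hxy⟩, hnot⟩ := hp
    obtain ⟨hu, hv, huv⟩ := hq
    simp only [df] at *
    by_cases hyv : y = v
    · have : x = u := by omega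
      rw [this, hyv]
    · exfalso
      obtain ⟨h1, h2, h3, h4⟩ := h y hy u hu v hv x hx (by omega) hyv hxy.ne'
      exact hnot ⟨h4, h1, hxy⟩
  have e1 : Dp S = (pairs S \ pairs A).image df ∪ Dp A := by
    rw [Dp, Dp, ← Finset.image_union, Finset.sdiff_union_of_subset hsub]
  have hdisj : Disjoint ((pairs S \ pairs A).image df) (Dp A) := by
    rw [Finset.disjoint_left]
    intro x hx hx'
    obtain ⟨p, hp, rfl⟩ := Finset.mem_image.mp hx
    obtain ⟨q, hq, he⟩ := Finset.mem_image.mp hx'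
    have := huniq p hp q (hsub hq) he.symm
    rw [this] at hp
    exact (Finset.mem_sdiff.mp hp).2 hq
  have hinj : ((pairs S \ pairs A).image df).card = (pairs S \ pairs A).card := by
    apply Finset.card_image_of_injOn
    intro p hp q hq he
    exact huniq p hp q (Finset.mem_sdiff.mp hq).1 he
  have hcard := Finset.card_sdiff_add_card_eq_card hsub
  rw [e1, Finset.card_union_of_disjoint hdisj, hinj]
  omega

/-- Elements forced by one additive relation. -/
def cl (T : Finset ℤ) : Finset ℤ :=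
  T ∪ ((T ×ˢ (T ×ˢ T)).image (fun p => p.1 + p.2.1 - p.2.2) ∪
    (T ×ˢ T).image (fun p => (p.1 + p.2) / 2))

/-- The size bound for one closure step. -/
def ev (t : ℕ) : ℕ := t + (t ^ 3 + t ^ 2)

lemma ev_mono : Monotone ev := by
  intro a b h
  unfold ev
  gcongr

lemma card_cl (T : Finset ℤ) : (cl T).card ≤ ev T.card := by
  unfold cl ev
  refine (Finset.card_union_le _ _).trans ?_
  refine Nat.add_le_add_left ?_ _
  refine (Finset.card_union_le _ _).trans ?_
  refine Nat.add_le_add ?_ ?_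
  · refine Finset.card_image_le.trans ?_
    rw [Finset.card_product, Finset.card_product]
    exact le_of_eq (by ring)
  · refine Finset.card_image_le.trans ?_
    rw [Finset.card_product]
    exact le_of_eq (by ring)

lemma subset_cl (T : Finset ℤ) : T ⊆ cl T := Finset.subset_union_left

lemma mem_cl_add {T : Finset ℤ} {a b c : ℤ} (ha : a ∈ T) (hb : b ∈ T) (hc : c ∈ T) :
    a + b - c ∈ cl T := by
  unfold cl
  rw [Finset.mem_union, Finset.mem_union]
  right; left
  exact Finset.mem_image.mpr ⟨(a, b, c), by simp [ha, hb, hc], rfl⟩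

lemma mem_cl_mid {T : Finset ℤ} {a b x : ℤ} (ha : a ∈ T) (hb : b ∈ T) (h : x + x = a + b) :
    x ∈ cl T := by
  unfold cl
  rw [Finset.mem_union, Finset.mem_union]
  right; right
  exact Finset.mem_image.mpr ⟨(a, b), by simp [ha, hb], by simp only; omega⟩

lemma cl_mono {T T' : Finset ℤ} (h : T ⊆ T') : cl T ⊆ cl T' := by
  unfold cl
  gcongr

lemma iter_mono {T T' : Finset ℤ} (h : T ⊆ T') (m : ℕ) : cl^[m] T ⊆ cl^[m] T' := by
  induction m generalizing T T' with
  | zero => simpa using h
  | succ m ih =>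
    rw [Function.iterate_succ_apply, Function.iterate_succ_apply]
    exact ih (cl_mono h)

lemma iter_le {T : Finset ℤ} {m k : ℕ} (h : m ≤ k) : cl^[m] T ⊆ cl^[k] T := by
  obtain ⟨j, rfl⟩ := Nat.exists_eq_add_of_le h
  clear h
  induction j with
  | zero => simp
  | succ j ih =>
    rw [← add_assoc, Function.iterate_succ_apply']
    exact ih.trans (subset_cl _)

lemma card_iter (T : Finset ℤ) (m : ℕ) : (cl^[m] T).card ≤ ev^[m] T.card := by
  induction m with
  | zero => simp
  | succ m ih =>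
    rw [Function.iterate_succ_apply', Function.iterate_succ_apply']
    exact (card_cl _).trans (ev_mono ih)

/-- An element occurring in a nontrivial relation whose other members lie in `T` is in the
closure of `T`. -/
lemma mem_cl_of_rel {T : Finset ℤ} {x a b c d : ℤ}
    (ha : a ∈ insert x T) (hb : b ∈ insert x T) (hc : c ∈ insert x T) (hd : d ∈ insert x T)
    (he : a + b = c + d) (h1 : a ≠ c) (h2 : a ≠ d)
    (hx : x = a ∨ x = b ∨ x = c ∨ x = d) : x ∈ cl T := by
  have key : ∀ a b c d : ℤ, b ∈ insert x T → c ∈ insert x T → d ∈ insert x T →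
      a + b = c + d → a ≠ c → a ≠ d → x = a → x ∈ cl T := by
    intro a b c d hb hc hd he h1 h2 hx
    subst hx
    have hc' : c ∈ T := by
      rcases Finset.mem_insert.mp hc with h | h
      · exact absurd h.symm h1
      · exact h
    have hd' : d ∈ T := by
      rcases Finset.mem_insert.mp hd with h | h
      · exact absurd h.symm h2
      · exact h
    rcases Finset.mem_insert.mp hb with h | h
    · subst h
      exact mem_cl_mid hc' hd' he
    · have : x = c + d - b := by omega
      rw [this]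
      exact mem_cl_add hc' hd' h
  rcases hx with h | h | h | h
  · exact key a b c d hb hc hd he h1 h2 h
  · exact key b a c d ha hc hd (by omega) (by omega) (by omega) h
  · exact key c d a b hd ha hb (by omega) (by omega) (by omega) h
  · exact key d c a b hc ha hb (by omega) (by omega) (by omega) h

/-! ### Families generated by few elements are small -/

lemma card_I (n : ℕ) : (I n).card = n := by simp [I]

lemma family_bound (n q m : ℕ) (hq : q ≤ n) (F : Finset (Finset ℤ))
    (hF : ∀ S ∈ F, ∃ Q : Finset ℤ, Q ⊆ I n ∧ Q.card ≤ q ∧ S ⊆ cl^[m] Q) :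
    F.card ≤ n ^ q * 2 ^ (ev^[m] q) := by
  have hsub : F ⊆ ((I n).powersetCard q).biUnion (fun Q => (cl^[m] Q).powerset) := by
    intro S hS
    obtain ⟨Q, hQI, hQc, hSQ⟩ := hF S hS
    obtain ⟨Q', hQQ', hQ'I, hQ'c⟩ := Finset.exists_subsuperset_card_eq hQI hQc
      (by rw [card_I]; exact hq)
    rw [Finset.mem_biUnion]
    exact ⟨Q', Finset.mem_powersetCard.mpr ⟨hQ'I, hQ'c⟩,
      Finset.mem_powerset.mpr (hSQ.trans (iter_mono hQQ' m))⟩
  refine (Finset.card_le_card hsub).trans ?_
  refine (Finset.card_biUnion_le_card_mul _ _ (2 ^ (ev^[m] q)) ?_).trans ?_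
  · intro Q hQ
    rw [Finset.card_powerset]
    have := card_iter Q m
    rw [(Finset.mem_powersetCard.mp hQ).2] at this
    exact Nat.pow_le_pow_right (by norm_num) this
  · rw [Finset.card_powersetCard, card_I]
    exact Nat.mul_le_mul_right _ (Nat.choose_le_pow n q)

/-! ### Free elements -/

/-- Elements of `S` not forced by smaller elements. -/
def free (S : Finset ℤ) : Finset ℤ :=
  S.filter (fun x => ¬ ∃ a ∈ S, ∃ b ∈ S, ∃ c ∈ S, a < x ∧ b < x ∧ c < x ∧ x = a + b - c)

lemma free_subset (S : Finset ℤ) : free S ⊆ S := Finset.filter_subset _ _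

lemma subset_iter_free (S : Finset ℤ) : S ⊆ cl^[S.card] (free S) := by
  have key : ∀ j : ℕ, ∀ x ∈ S, (S.filter (fun y => y < x)).card ≤ j → x ∈ cl^[j] (free S) := by
    intro j
    induction j with
    | zero =>
      intro x hx hj
      have h0 : S.filter (fun y => y < x) = ∅ := Finset.card_eq_zero.mp (Nat.le_zero.mp hj)
      simp only [Function.iterate_zero, id]
      refine Finset.mem_filter.mpr ⟨hx, ?_⟩
      rintro ⟨a, ha, b, hb, c, hc, h1, -⟩
      have : a ∈ S.filter (fun y => y < x) := Finset.mem_filter.mpr ⟨ha, h1⟩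
      rw [h0] at this
      exact absurd this (Finset.notMem_empty a)
    | succ j ih =>
      intro x hx hj
      by_cases hfree : x ∈ free S
      · exact iter_le (Nat.zero_le _) (by simpa using hfree)
      · have hex : ∃ a ∈ S, ∃ b ∈ S, ∃ c ∈ S, a < x ∧ b < x ∧ c < x ∧ x = a + b - c := by
          by_contra hcon
          exact hfree (Finset.mem_filter.mpr ⟨hx, hcon⟩)
        obtain ⟨a, ha, b, hb, c, hc, h1, h2, h3, he⟩ := hex
        have hlt : ∀ y ∈ S, y < x → (S.filter (fun z => z < y)).card ≤ j := by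
          intro y hy hyx
          have hss : S.filter (fun z => z < y) ⊂ S.filter (fun z => z < x) := by
            rw [Finset.ssubset_iff_of_subset]
            · exact ⟨y, Finset.mem_filter.mpr ⟨hy, hyx⟩, by simp⟩
            · intro z hz
              rw [Finset.mem_filter] at *
              exact ⟨hz.1, hz.2.trans hyx⟩
          have := Finset.card_lt_card hss
          omega
        rw [Function.iterate_succ_apply', he]
        exact mem_cl_add (ih a ha (hlt a ha h1)) (ih b hb (hlt b hb h2)) (ih c hc (hlt c hc h3))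
  intro x hx
  exact key _ x hx (Finset.card_filter_le _ _)

lemma free_inside (S : Finset ℤ) : Inside ∅ (free S) := by
  have key : ∀ a ∈ free S, ∀ b ∈ free S, ∀ c ∈ free S, ∀ d ∈ free S, a + b = c + d →
      a ≠ c → a ≠ d → b ≤ a → c ≤ a → d ≤ a → False := by
    intro a ha b hb c hc d hd he h1 h2 h3 h4 h5
    have ha' := (Finset.mem_filter.mp ha).2
    apply ha'
    exact ⟨c, free_subset S hc, d, free_subset S hd, b, free_subset S hb, by omega, by omega,
      by omega, by omega⟩
  intro a ha b hb c hc d hd he h1 h2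
  exfalso
  by_cases ca : b ≤ a ∧ c ≤ a ∧ d ≤ a
  · exact key a ha b hb c hc d hd he h1 h2 ca.1 ca.2.1 ca.2.2
  by_cases cb : a ≤ b ∧ c ≤ b ∧ d ≤ b
  · exact key b hb a ha c hc d hd (by omega) (by omega) (by omega) cb.1 cb.2.1 cb.2.2
  by_cases cc : d ≤ c ∧ a ≤ c ∧ b ≤ c
  · exact key c hc d hd a ha b hb (by omega) (by omega) (by omega) cc.1 cc.2.1 cc.2.2
  · exact key d hd c hc a ha b hb (by omega) (by omega) (by omega) (by omega) (by omega)
      (by omega)

lemma pairs_empty : (pairs ∅).card = 0 := by simp [pairs]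

lemma Dp_empty : (Dp ∅).card = 0 := by simp [Dp, pairs]

lemma sidon_card {T : Finset ℤ} (h : Inside ∅ T) : (Dp T).card = (pairs T).card := by
  have := card_Dp_of_inside (Finset.empty_subset T) h
  rw [pairs_empty, Dp_empty] at this
  omega

/-! ### Sets with many coincidences are generated by few elements -/

lemma exists_outside {K U : Finset ℤ} (h : ¬ Inside K U) :
    ∃ a ∈ U, ∃ b ∈ U, ∃ c ∈ U, ∃ d ∈ U, a + b = c + d ∧ a ≠ c ∧ a ≠ d ∧
      ∃ w, (w = a ∨ w = b ∨ w = c ∨ w = d) ∧ w ∉ K := by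
  unfold Inside at h
  push Not at h
  obtain ⟨a, ha, b, hb, c, hc, d, hd, he, h1, h2, h3⟩ := h
  refine ⟨a, ha, b, hb, c, hc, d, hd, he, h1, h2, ?_⟩
  by_cases ka : a ∈ K
  · by_cases kb : b ∈ K
    · by_cases kc : c ∈ K
      · exact ⟨d, by simp, h3 ka kb kc⟩
      · exact ⟨c, by simp, kc⟩
    · exact ⟨b, by simp, kb⟩
  · exact ⟨a, by simp, ka⟩

lemma generated {U : Finset ℤ} {s : ℕ} (hs : 28 ≤ s) (hU : U.card = s + 1)
    (hD : 2 * (Dp U).card + 2 ≤ s * (s - 1)) :
    ∃ Q ⊆ U, Q.card = s - 2 ∧ U ⊆ cl^[3] Q := by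
  classical
  have hcov : ∀ K : Finset ℤ, K ⊆ U → K.card ≤ 8 → ¬ Inside K U := by
    intro K hKU hK hin
    have h1 := card_Dp_of_inside hKU hin
    have h2 := two_mul_card_pairs U
    have h3 := two_mul_card_pairs K
    rw [hU] at h2
    have h4 : K.card * (K.card - 1) ≤ 8 * 7 := Nat.mul_le_mul hK (by omega)
    have h5 : (s + 1) * (s + 1 - 1) = s * (s - 1) + 2 * s := by
      obtain ⟨t, rfl⟩ : ∃ t, s = t + 1 := ⟨s - 1, by omega⟩
      simp only [Nat.add_sub_cancel]
      ring
    omega
  obtain ⟨a1, ha1, b1, hb1, c1, hc1, d1, hd1, he1, hn1, hm1, x0, -, -⟩ :=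
    exists_outside (hcov ∅ (Finset.empty_subset _) (by simp))
  set K1 : Finset ℤ := {a1, b1, c1, d1} with hK1
  have hK1c : K1.card ≤ 4 := Finset.card_le_four
  have hK1U : K1 ⊆ U := by
    intro z hz
    simp only [hK1, mem_insert, mem_singleton] at hz
    rcases hz with rfl | rfl | rfl | rfl <;> assumption
  obtain ⟨a2, ha2, b2, hb2, c2, hc2, d2, hd2, he2, hn2, hm2, y, hy, hyK⟩ :=
    exists_outside (hcov K1 hK1U (by omega))
  set K2 : Finset ℤ := K1 ∪ {a2, b2, c2, d2} with hK2
  have hK2U : K2 ⊆ U := by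
    refine Finset.union_subset hK1U ?_
    intro z hz
    simp only [mem_insert, mem_singleton] at hz
    rcases hz with rfl | rfl | rfl | rfl <;> assumption
  have hK2c : K2.card ≤ 8 := by
    refine (Finset.card_union_le _ _).trans ?_
    have : ({a2, b2, c2, d2} : Finset ℤ).card ≤ 4 := Finset.card_le_four
    omega
  obtain ⟨a3, ha3, b3, hb3, c3, hc3, d3, hd3, he3, hn3, hm3, z, hz, hzK⟩ :=
    exists_outside (hcov K2 hK2U hK2c)
  have hyU : y ∈ U := by rcases hy with rfl | rfl | rfl | rfl <;> assumption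
  have hzU : z ∈ U := by rcases hz with rfl | rfl | rfl | rfl <;> assumption
  have hin1 : ∀ w, (w = a1 ∨ w = b1 ∨ w = c1 ∨ w = d1) → w ∈ K1 := by
    intro w hw
    simp only [hK1, mem_insert, mem_singleton]
    exact hw
  have hin2 : ∀ w, (w = a2 ∨ w = b2 ∨ w = c2 ∨ w = d2) → w ∈ K2 := by
    intro w hw
    rw [hK2, Finset.mem_union]
    right
    simp only [mem_insert, mem_singleton]
    exact hw
  have hxK1 : a1 ∈ K1 := hin1 a1 (by simp)
  have hyx : y ≠ a1 := fun h => hyK (h ▸ hxK1)
  have hzx : z ≠ a1 := fun h => hzK (by rw [h, hK2]; exact Finset.mem_union_left _ hxK1)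
  have hzy : z ≠ y := fun h => hzK (h ▸ hin2 y hy)
  set Q : Finset ℤ := ((U.erase a1).erase y).erase z with hQ
  have hQU : Q ⊆ U :=
    (Finset.erase_subset _ _).trans ((Finset.erase_subset _ _).trans (Finset.erase_subset _ _))
  have hQc : Q.card = s - 2 := by
    rw [hQ, Finset.card_erase_of_mem, Finset.card_erase_of_mem, Finset.card_erase_of_mem ha1, hU]
    · omega
    · exact Finset.mem_erase.mpr ⟨hyx, hyU⟩
    · exact Finset.mem_erase.mpr ⟨hzy, Finset.mem_erase.mpr ⟨hzx, hzU⟩⟩
  have hmemQ : ∀ w ∈ U, w ≠ a1 → w ≠ y → w ≠ z → w ∈ Q := by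
    intro w hw h1 h2 h3
    exact Finset.mem_erase.mpr ⟨h3, Finset.mem_erase.mpr ⟨h2, Finset.mem_erase.mpr ⟨h1, hw⟩⟩⟩
  -- the first pivot
  have hx1 : a1 ∈ cl Q := by
    have hh : ∀ w ∈ U, (w = a1 ∨ w = b1 ∨ w = c1 ∨ w = d1) → w ∈ insert a1 Q := by
      intro w hw hw'
      by_cases h1 : w = a1
      · rw [h1]; exact Finset.mem_insert_self _ _
      · refine Finset.mem_insert_of_mem (hmemQ w hw h1 ?_ ?_)
        · intro h; exact hyK (h ▸ hin1 w hw')
        · intro h
          apply hzK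
          rw [hK2, ← h]
          exact Finset.mem_union_left _ (hin1 w hw')
    exact mem_cl_of_rel (hh a1 ha1 (by simp)) (hh b1 hb1 (by simp)) (hh c1 hc1 (by simp))
      (hh d1 hd1 (by simp)) he1 hn1 hm1 (by simp)
  have hy2 : y ∈ cl (cl Q) := by
    have hh : ∀ w ∈ U, (w = a2 ∨ w = b2 ∨ w = c2 ∨ w = d2) → w ∈ insert y (cl Q) := by
      intro w hw hw'
      by_cases h1 : w = y
      · rw [h1]; exact Finset.mem_insert_self _ _
      · refine Finset.mem_insert_of_mem ?_
        by_cases h2 : w = a1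
        · rw [h2]; exact hx1
        · refine subset_cl _ (hmemQ w hw h2 h1 ?_)
          intro h
          exact hzK (h ▸ hin2 w hw')
    exact mem_cl_of_rel (hh a2 ha2 (by simp)) (hh b2 hb2 (by simp)) (hh c2 hc2 (by simp))
      (hh d2 hd2 (by simp)) he2 hn2 hm2 hy
  have hz3 : z ∈ cl (cl (cl Q)) := by
    have hh : ∀ w ∈ U, w ∈ insert z (cl (cl Q)) := by
      intro w hw
      by_cases h1 : w = z
      · rw [h1]; exact Finset.mem_insert_self _ _
      · refine Finset.mem_insert_of_mem ?_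
        by_cases h2 : w = y
        · rw [h2]; exact hy2
        · refine subset_cl _ ?_
          by_cases h3 : w = a1
          · rw [h3]; exact hx1
          · exact subset_cl _ (hmemQ w hw h3 h2 h1)
    exact mem_cl_of_rel (hh a3 ha3) (hh b3 hb3) (hh c3 hc3) (hh d3 hd3) he3 hn3 hm3 hz
  refine ⟨Q, hQU, hQc, ?_⟩
  intro w hw
  have h3 : cl^[3] Q = cl (cl (cl Q)) := rfl
  rw [h3]
  by_cases h1 : w = z
  · rw [h1]; exact hz3
  by_cases h2 : w = y
  · rw [h2]; exact subset_cl _ hy2
  by_cases h3 : w = a1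
  · rw [h3]; exact subset_cl _ (subset_cl _ hx1)
  · exact subset_cl _ (subset_cl _ (subset_cl _ (hmemQ w hw h3 h2 h1)))


/-! ### The upper bound -/

/-- A three-term progression in a set with exactly one coincidence. -/
lemma exists_ap {S : Finset ℤ} (h : (Dp S).card + 1 = (pairs S).card) :
    ∃ x ∈ S, ∃ y ∈ S, x < y ∧ y + y - x ∈ S := by
  classical
  have hninj : ¬ Set.InjOn df (pairs S : Set (ℤ × ℤ)) := by
    intro hinj
    have := Finset.card_image_of_injOn hinj
    unfold Dp at h
    omega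
  have hex : ∃ x y u v : ℤ, (x, y) ∈ pairs S ∧ (u, v) ∈ pairs S ∧ y - x = v - u ∧ x < u := by
    unfold Set.InjOn at hninj
    push Not at hninj
    obtain ⟨⟨x, y⟩, hp, ⟨u, v⟩, hq, he, hne⟩ := hninj
    simp only [df] at he
    rcases lt_trichotomy x u with h1 | h1 | h1
    · exact ⟨x, y, u, v, hp, hq, he, h1⟩
    · exfalso
      apply hne
      have : y = v := by omega
      rw [h1, this]
    · exact ⟨u, v, x, y, hq, hp, he.symm, h1⟩
  obtain ⟨x, y, u, v, hp, hq, he, hxu⟩ := hex
  rw [mem_pairs] at hp hq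
  obtain ⟨hx, hy, hxy⟩ := hp
  obtain ⟨hu, hv, huv⟩ := hq
  simp only at hx hy hxy hu hv huv
  by_cases hyu : y = u
  · subst hyu
    refine ⟨x, hx, y, hy, hxy, ?_⟩
    have : y + y - x = v := by omega
    rw [this]
    exact hv
  · exfalso
    have hsub : Dp S ⊆ (((pairs S).erase (u, v)).erase (y, v)).image df := by
      intro t ht
      obtain ⟨p, hp, rfl⟩ := Finset.mem_image.mp ht
      by_cases h1 : p = (u, v)
      · refine Finset.mem_image.mpr ⟨(x, y), ?_, ?_⟩
        · refine Finset.mem_erase.mpr ⟨?_, Finset.mem_erase.mpr ⟨?_, mem_pairs.mpr ⟨hx, hy, hxy⟩⟩⟩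
          · intro h2
            have := congrArg Prod.fst h2
            simp only at this
            omega
          · intro h2
            have := congrArg Prod.fst h2
            simp only at this
            omega
        · rw [h1]; simp only [df]; omega
      · by_cases h2 : p = (y, v)
        · refine Finset.mem_image.mpr ⟨(x, u), ?_, ?_⟩
          · refine Finset.mem_erase.mpr ⟨?_, Finset.mem_erase.mpr
              ⟨?_, mem_pairs.mpr ⟨hx, hu, hxu⟩⟩⟩
            · intro h3
              have := congrArg Prod.fst h3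
              simp only at this
              omega
            · intro h3
              have := congrArg Prod.fst h3
              simp only at this
              omega
          · rw [h2]; simp only [df]; omega
        · exact Finset.mem_image.mpr ⟨p, Finset.mem_erase.mpr ⟨h2, Finset.mem_erase.mpr
            ⟨h1, hp⟩⟩, rfl⟩
    have hc := (Finset.card_le_card hsub).trans Finset.card_image_le
    have hm1 : (u, v) ∈ pairs S := mem_pairs.mpr ⟨hu, hv, huv⟩
    have hm2 : (y, v) ∈ (pairs S).erase (u, v) := by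
      refine Finset.mem_erase.mpr ⟨?_, mem_pairs.mpr ⟨hy, hv, by simp only; omega⟩⟩
      intro h3
      have := congrArg Prod.fst h3
      simp only at this
      exact hyu this
    have hpos := Finset.card_pos.mpr ⟨_, hm2⟩
    rw [Finset.card_erase_of_mem hm1] at hpos
    rw [Finset.card_erase_of_mem hm2, Finset.card_erase_of_mem hm1] at hc
    unfold Dp at h
    unfold Dp at hc
    omega

/-- Sets of size `s` containing a three-term progression. -/
lemma ap_count (n s : ℕ) (hs : 3 ≤ s) (F : Finset (Finset ℤ))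
    (hF : ∀ S ∈ F, S ⊆ I n ∧ S.card = s ∧ ∃ x ∈ S, ∃ y ∈ S, x < y ∧ y + y - x ∈ S) :
    F.card * (s - 3).factorial ≤ n ^ (s - 1) := by
  classical
  have hsub : F ⊆ (((I n) ×ˢ (I n)) ×ˢ ((I n).powersetCard (s - 3))).image
      (fun q => {q.1.1, q.1.2, q.1.2 + q.1.2 - q.1.1} ∪ q.2) := by
    intro S hS
    obtain ⟨hSI, hSc, x, hx, y, hy, hxy, hz⟩ := hF S hS
    have hA : ({x, y, y + y - x} : Finset ℤ) ⊆ S := by
      intro w hw
      simp only [mem_insert, mem_singleton] at hw
      rcases hw with rfl | rfl | rfl <;> assumption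
    have hAc : ({x, y, y + y - x} : Finset ℤ).card = 3 := by
      rw [Finset.card_eq_three]
      exact ⟨x, y, y + y - x, by omega, by omega, by omega, rfl⟩
    refine Finset.mem_image.mpr ⟨((x, y), S \ {x, y, y + y - x}), ?_, ?_⟩
    · refine Finset.mem_product.mpr ⟨Finset.mem_product.mpr ⟨hSI hx, hSI hy⟩, ?_⟩
      refine Finset.mem_powersetCard.mpr ⟨Finset.sdiff_subset.trans hSI, ?_⟩
      rw [Finset.card_sdiff_of_subset hA, hAc, hSc]
    · exact Finset.union_sdiff_of_subset hA
  have h1 := (Finset.card_le_card hsub).trans Finset.card_image_le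
  rw [Finset.card_product, Finset.card_product, Finset.card_powersetCard, card_I] at h1
  have h2 : n.choose (s - 3) * (s - 3).factorial ≤ n ^ (s - 3) := by
    rw [mul_comm, ← Nat.descFactorial_eq_factorial_mul_choose]
    exact Nat.descFactorial_le_pow n (s - 3)
  calc F.card * (s - 3).factorial ≤ (n * n * n.choose (s - 3)) * (s - 3).factorial :=
        Nat.mul_le_mul_right _ h1
    _ = n * n * (n.choose (s - 3) * (s - 3).factorial) := by ring
    _ ≤ n * n * n ^ (s - 3) := Nat.mul_le_mul_left _ h2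
    _ = n ^ (s - 1) := by
      have : s - 1 = (s - 3) + 1 + 1 := by omega
      rw [this, pow_succ, pow_succ]
      ring

/-- Sets with `|S - S| = s (s - 1) - 1` that do not have exactly `s` elements are generated by
`s - 2` elements. -/
lemma generated_of_large {S : Finset ℤ} {s : ℕ} (hs : 28 ≤ s)
    (hS : (diffs S).card = s * (s - 1) - 1) (hcard : S.card ≠ s) :
    ∃ Q ⊆ S, Q.card ≤ s - 2 ∧ S ⊆ cl^[s * (s - 1) + 3] Q := by
  classical
  have hss : 28 * 27 ≤ s * (s - 1) := Nat.mul_le_mul hs (by omega)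
  have hne : S.Nonempty := by
    rw [Finset.nonempty_iff_ne_empty]
    rintro rfl
    simp [diffs] at hS
    omega
  have hD := card_diffs hne
  have hDp : 2 * (Dp S).card + 2 = s * (s - 1) := by omega
  have hpS := two_mul_card_pairs S
  have hle := Dp_card_le S
  have hSc := card_le_card_diffs S
  have hfree := sidon_card (free_inside S)
  have hfle : (Dp (free S)).card ≤ (Dp S).card :=
    Finset.card_le_card (Dp_mono (free_subset S))
  have hpf := two_mul_card_pairs (free S)
  have hlt : (free S).card < s := by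
    by_contra hcon
    push Not at hcon
    have : s * (s - 1) ≤ (free S).card * ((free S).card - 1) := Nat.mul_le_mul hcon (by omega)
    omega
  have hgt : s < S.card := by
    by_contra hcon
    push Not at hcon
    have h1 : S.card ≤ s - 1 := by omega
    have h2 : S.card * (S.card - 1) ≤ (s - 1) * (s - 2) := Nat.mul_le_mul h1 (by omega)
    have h3 : (s - 1) * (s - 2) + 2 * (s - 1) = s * (s - 1) := by
      obtain ⟨t, rfl⟩ : ∃ t, s = t + 2 := ⟨s - 2, by omega⟩
      simp only [Nat.add_sub_cancel, Nat.reduceSubDiff]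
      ring
    omega
  have hiter := subset_iter_free S
  rcases Nat.lt_or_ge (free S).card (s - 1) with h1 | h1
  · refine ⟨free S, free_subset S, by omega, hiter.trans (iter_le ?_)⟩
    omega
  · have h2 : (free S).card = s - 1 := by omega
    -- two further elements
    have h3 : 1 < (S \ free S).card := by
      rw [Finset.card_sdiff_of_subset (free_subset S)]
      omega
    obtain ⟨x, hx, y, hy, hxy⟩ := Finset.one_lt_card.mp h3
    rw [Finset.mem_sdiff] at hx hy
    set U : Finset ℤ := insert x (insert y (free S)) with hU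
    have hUc : U.card = s + 1 := by
      rw [hU, Finset.card_insert_of_notMem, Finset.card_insert_of_notMem hy.2, h2]
      · omega
      · rw [Finset.mem_insert]
        rintro (h | h)
        · exact hxy h
        · exact hx.2 h
    have hUS : U ⊆ S := by
      intro w hw
      rw [hU, Finset.mem_insert, Finset.mem_insert] at hw
      rcases hw with rfl | rfl | h
      · exact hx.1
      · exact hy.1
      · exact free_subset S h
    have hDU : (Dp U).card ≤ (Dp S).card := Finset.card_le_card (Dp_mono hUS)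
    obtain ⟨Q, hQU, hQc, hQ⟩ := generated hs hUc (by omega)
    refine ⟨Q, hQU.trans hUS, hQc.le, ?_⟩
    have hFU : free S ⊆ U := (Finset.subset_insert _ _).trans (Finset.subset_insert _ _)
    have h4 : cl^[S.card] (free S) ⊆ cl^[S.card] (cl^[3] Q) := iter_mono (hFU.trans hQ) _
    rw [← Function.iterate_add_apply] at h4
    exact (hiter.trans h4).trans (iter_le (by omega))

/-- Upper bound for the number of sets with `|S - S| = s (s - 1) - 1`. -/
lemma upper (n s : ℕ) (hs : 28 ≤ s) (hn : s ≤ n) :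
    N n (s * (s - 1) - 1) * (s - 3).factorial ≤ n ^ (s - 1) +
      n ^ (s - 2) * (2 ^ (ev^[s * (s - 1) + 3] (s - 2)) * (s - 3).factorial) := by
  classical
  unfold N
  set F := (I n).powerset.filter (fun S => (diffs S).card = s * (s - 1) - 1) with hF
  have hsplit := Finset.card_filter_add_card_filter_not (s := F) (fun S => S.card = s)
  have h1 : (F.filter (fun S => S.card = s)).card * (s - 3).factorial ≤ n ^ (s - 1) := by
    apply ap_count n s (by omega)
    intro S hS
    rw [Finset.mem_filter, hF, Finset.mem_filter, Finset.mem_powerset] at hS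
    obtain ⟨⟨hSI, hd⟩, hSc⟩ := hS
    refine ⟨hSI, hSc, exists_ap ?_⟩
    have hne : S.Nonempty := by
      rw [← Finset.card_pos]; omega
    have hD := card_diffs hne
    have hp := two_mul_card_pairs S
    rw [hSc] at hp
    have hss : 28 * 27 ≤ s * (s - 1) := Nat.mul_le_mul hs (by omega)
    omega
  have h2 : (F.filter (fun S => ¬ S.card = s)).card ≤
      n ^ (s - 2) * 2 ^ (ev^[s * (s - 1) + 3] (s - 2)) := by
    apply family_bound n (s - 2) _ (by omega)
    intro S hS
    rw [Finset.mem_filter, hF, Finset.mem_filter, Finset.mem_powerset] at hS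
    obtain ⟨⟨hSI, hd⟩, hSc⟩ := hS
    obtain ⟨Q, hQS, hQc, hQ⟩ := generated_of_large hs hd hSc
    exact ⟨Q, hQS.trans hSI, hQc, hQ⟩
  rw [← hsplit, add_mul]
  refine Nat.add_le_add h1 ?_
  refine (Nat.mul_le_mul_right _ h2).trans (le_of_eq (by ring))


/-! ### The lower bound -/

/-- Sets of size `t` containing `A` all of whose nontrivial relations are inside `A`. -/
noncomputable def G (n : ℕ) (A : Finset ℤ) (t : ℕ) : Finset (Finset ℤ) :=
  @Finset.filter _ (fun S => A ⊆ S ∧ Inside A S) (Classical.decPred _) ((I n).powersetCard t)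

lemma mem_G {n : ℕ} {A : Finset ℤ} {t : ℕ} {S : Finset ℤ} :
    S ∈ G n A t ↔ S ⊆ I n ∧ S.card = t ∧ A ⊆ S ∧ Inside A S := by
  unfold G
  rw [@Finset.mem_filter _ _ (Classical.decPred _), Finset.mem_powersetCard, and_assoc]

lemma insert_inside {A T : Finset ℤ} {x : ℤ} (hT : Inside A T) (hx : x ∉ cl T) :
    Inside A (insert x T) := by
  intro a ha b hb c hc d hd he h1 h2
  have hno : ∀ w, (w = a ∨ w = b ∨ w = c ∨ w = d) → w ≠ x := by
    intro w hw hwx
    subst hwx
    exact hx (mem_cl_of_rel ha hb hc hd he h1 h2 hw)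
  have hin : ∀ w ∈ insert x T, (w = a ∨ w = b ∨ w = c ∨ w = d) → w ∈ T := by
    intro w hw hw'
    rcases Finset.mem_insert.mp hw with h | h
    · exact absurd h (hno w hw')
    · exact h
  exact hT a (hin a ha (by simp)) b (hin b hb (by simp)) c (hin c hc (by simp)) d
    (hin d hd (by simp)) he h1 h2

lemma G_step (n : ℕ) (A : Finset ℤ) (t : ℕ) :
    (G n A t).card * (n - ev t) ≤ (G n A (t + 1)).card * (t + 1 - A.card) := by
  classical
  refine Finset.card_mul_le_card_mul (fun T S => ∃ x ∉ T, S = insert x T) ?_ ?_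
  · intro T hT
    rw [mem_G] at hT
    obtain ⟨hTI, hTc, hAT, hin⟩ := hT
    have h1 : (I n \ cl T).card ≤
        (Finset.bipartiteAbove (fun T S => ∃ x ∉ T, S = insert x T) (G n A (t + 1)) T).card := by
      refine Finset.card_le_card_of_injOn (fun x => insert x T) ?_ ?_
      · intro x hx
        have hx' := Finset.mem_sdiff.mp hx
        have hxT : x ∉ T := fun h => hx'.2 (subset_cl _ h)
        refine (Finset.mem_bipartiteAbove _).mpr ⟨mem_G.mpr ⟨?_, ?_, ?_, ?_⟩, x, hxT, rfl⟩
        · exact Finset.insert_subset hx'.1 hTI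
        · rw [Finset.card_insert_of_notMem hxT, hTc]
        · exact hAT.trans (Finset.subset_insert _ _)
        · exact insert_inside hin hx'.2
      · intro x hx y hy hxy
        have hx' := Finset.mem_sdiff.mp hx
        have hxT : x ∉ T := fun h => hx'.2 (subset_cl _ h)
        have : x ∈ insert y T := by
          have h := Finset.mem_insert_self x T
          simp only at hxy
          rw [hxy] at h
          exact h
        rcases Finset.mem_insert.mp this with h | h
        · exact h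
        · exact absurd h hxT
    refine le_trans ?_ h1
    have h2 := Finset.le_card_sdiff (cl T) (I n)
    rw [card_I] at h2
    have h3 := card_cl T
    rw [hTc] at h3
    omega
  · intro S hS
    rw [mem_G] at hS
    obtain ⟨hSI, hSc, hAS, hin⟩ := hS
    have h1 : (S \ A).card = t + 1 - A.card := by
      rw [Finset.card_sdiff_of_subset hAS, hSc]
    rw [← h1]
    refine (Finset.card_le_card (t := (S \ A).image (fun x => S.erase x)) ?_).trans
      Finset.card_image_le
    intro T hT
    obtain ⟨hTG, x, hxT, rfl⟩ := (Finset.mem_bipartiteBelow _).mp hT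
    rw [mem_G] at hTG
    refine Finset.mem_image.mpr ⟨x, ?_, Finset.erase_insert hxT⟩
    exact Finset.mem_sdiff.mpr ⟨Finset.mem_insert_self _ _, fun h => hxT (hTG.2.2.1 h)⟩

lemma inside_self (A : Finset ℤ) : Inside A A := by
  intro a ha b hb c hc d hd _ _ _
  exact ⟨ha, hb, hc, hd⟩

lemma G_lower (n : ℕ) (A : Finset ℤ) (hA : A ⊆ I n) (s j : ℕ) (hj : A.card + j ≤ s) :
    (n - ev s) ^ j ≤ (G n A (A.card + j)).card * j.factorial := by
  induction j with
  | zero =>
    have : A ∈ G n A A.card := mem_G.mpr ⟨hA, rfl, Finset.Subset.refl _, inside_self A⟩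
    have h1 : 0 < (G n A A.card).card := Finset.card_pos.mpr ⟨A, this⟩
    simpa using h1
  | succ j ih =>
    have ih' := ih (by omega)
    have hstep := G_step n A (A.card + j)
    have e1 : A.card + j + 1 - A.card = j + 1 := by omega
    rw [e1] at hstep
    have hev : ev (A.card + j) ≤ ev s := ev_mono (by omega)
    calc (n - ev s) ^ (j + 1) = (n - ev s) ^ j * (n - ev s) := pow_succ _ _
      _ ≤ ((G n A (A.card + j)).card * j.factorial) * (n - ev (A.card + j)) :=
          Nat.mul_le_mul ih' (by omega)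
      _ = ((G n A (A.card + j)).card * (n - ev (A.card + j))) * j.factorial := by ring
      _ ≤ ((G n A (A.card + j + 1)).card * (j + 1)) * j.factorial :=
          Nat.mul_le_mul_right _ hstep
      _ = (G n A (A.card + (j + 1))).card * (j + 1).factorial := by
          rw [Nat.factorial_succ, ← add_assoc]
          ring

/-- The number of differences of a member of the family `G`. -/
lemma diffs_of_G {n : ℕ} {A S : Finset ℤ} {s : ℕ} (hs : 0 < s) (h : S ∈ G n A s) :
    (diffs S).card + A.card * (A.card - 1) = s * (s - 1) + 1 + 2 * (Dp A).card := by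
  obtain ⟨-, hSc, hAS, hin⟩ := mem_G.mp h
  have hne : S.Nonempty := by
    rw [← Finset.card_pos]; omega
  have h1 := card_diffs hne
  have h2 := card_Dp_of_inside hAS hin
  have h3 := two_mul_card_pairs S
  have h4 := two_mul_card_pairs A
  rw [hSc] at h3
  omega

/-- Sidon sets: many sets with `s (s - 1) + 1` differences. -/
lemma lower_sidon (n s : ℕ) (hs : 0 < s) :
    (n - ev s) ^ s ≤ N n (s * (s - 1) + 1) * s.factorial := by
  have h1 := G_lower n ∅ (Finset.empty_subset _) s s (by simp)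
  rw [Finset.card_empty, zero_add] at h1
  refine h1.trans (Nat.mul_le_mul_right _ (Finset.card_le_card ?_))
  intro S hS
  have h2 := diffs_of_G hs hS
  rw [Dp_empty, Finset.card_empty] at h2
  rw [Finset.mem_filter, Finset.mem_powerset]
  exact ⟨(mem_G.mp hS).1, by omega⟩

/-- One three-term progression: the value `s (s - 1) - 1` is attained. -/
lemma attained (n s : ℕ) (hs : 3 ≤ s) (hn : ev s < n) : 0 < N n (s * (s - 1) - 1) := by
  have hA : ({0, 1, 2} : Finset ℤ) ⊆ I n := by
    have : 3 ≤ ev s := by unfold ev; omega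
    intro x hx
    simp only [mem_insert, mem_singleton] at hx
    unfold I
    rw [Finset.mem_Ico]
    omega
  have hDp : (Dp ({0, 1, 2} : Finset ℤ)).card = 2 := by decide
  have hAc : ({0, 1, 2} : Finset ℤ).card = 3 := by decide
  have h1 := G_lower n {0, 1, 2} hA s (s - 3) (by rw [hAc]; omega)
  rw [hAc] at h1
  have e : 3 + (s - 3) = s := by omega
  rw [e] at h1
  have hpos : 0 < (n - ev s) ^ (s - 3) := Nat.pow_pos (by omega)
  have h2 : 0 < (G n {0, 1, 2} s).card := by
    rcases Nat.eq_zero_or_pos (G n {0, 1, 2} s).card with h | h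
    · rw [h, zero_mul] at h1
      omega
    · exact h
  refine h2.trans_le (Finset.card_le_card ?_)
  intro S hS
  have h3 := diffs_of_G (by omega) hS
  rw [hDp, hAc] at h3
  rw [Finset.mem_filter, Finset.mem_powerset]
  exact ⟨(mem_G.mp hS).1, by omega⟩

/-- The parallelogram `{a, a + x, a + y, a + x + y}`. -/
def para (q : ℤ × ℤ × ℤ) : Finset ℤ := {q.1, q.1 + q.2.1, q.1 + q.2.2, q.1 + q.2.1 + q.2.2}

lemma para_card {q : ℤ × ℤ × ℤ} (h1 : 0 < q.2.1) (h2 : q.2.1 < q.2.2) : (para q).card = 4 := by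
  unfold para
  rw [Finset.card_insert_of_notMem, Finset.card_insert_of_notMem, Finset.card_insert_of_notMem,
    Finset.card_singleton]
  · simp only [mem_singleton]; omega
  · simp only [mem_insert, mem_singleton]; omega
  · simp only [mem_insert, mem_singleton]; omega

lemma para_pairs {q : ℤ × ℤ × ℤ} (h1 : 0 < q.2.1) (h2 : q.2.1 < q.2.2) :
    Dp (para q) = {q.2.1, q.2.2, q.2.1 + q.2.2, q.2.2 - q.2.1} := by
  obtain ⟨a, x, y⟩ := q
  simp only at h1 h2
  ext w
  simp only [Dp, mem_image, mem_pairs, df, para, mem_insert, mem_singleton, Prod.exists]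
  constructor
  · rintro ⟨u, v, ⟨hu, hv, huv⟩, rfl⟩
    rcases hu with rfl | rfl | rfl | rfl <;> rcases hv with rfl | rfl | rfl | rfl <;> omega
  · rintro (rfl | rfl | rfl | rfl)
    · exact ⟨a, a + w, ⟨by simp, by simp, by omega⟩, by ring⟩
    · exact ⟨a, a + w, ⟨by simp, by simp, by omega⟩, by ring⟩
    · exact ⟨a, a + x + y, ⟨by simp, by simp, by omega⟩, by ring⟩
    · exact ⟨a + x, a + y, ⟨by simp, by simp, by omega⟩, by ring⟩

lemma para_Dp_card {q : ℤ × ℤ × ℤ} (h1 : 0 < q.2.1) (h2 : q.2.1 < q.2.2)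
    (h3 : q.2.2 ≠ 2 * q.2.1) : (Dp (para q)).card = 4 := by
  rw [para_pairs h1 h2]
  rw [Finset.card_insert_of_notMem, Finset.card_insert_of_notMem, Finset.card_insert_of_notMem,
    Finset.card_singleton]
  · simp only [mem_singleton]; omega
  · simp only [mem_insert, mem_singleton]; omega
  · simp only [mem_insert, mem_singleton]; omega

lemma para_inj {q r : ℤ × ℤ × ℤ} (h1 : 0 < q.2.1) (h2 : q.2.1 < q.2.2) (h3 : 0 < r.2.1)
    (h4 : r.2.1 < r.2.2) (h : para q = para r) : q = r := by
  obtain ⟨a, x, y⟩ := q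
  obtain ⟨b, u, v⟩ := r
  simp only at h1 h2 h3 h4
  have m1 : a ∈ para (b, u, v) := by rw [← h]; simp [para]
  have m2 : a + x ∈ para (b, u, v) := by rw [← h]; simp [para]
  have m3 : a + y ∈ para (b, u, v) := by rw [← h]; simp [para]
  have m5 : b ∈ para (a, x, y) := by rw [h]; simp [para]
  have m6 : b + u ∈ para (a, x, y) := by rw [h]; simp [para]
  have m7 : b + v ∈ para (a, x, y) := by rw [h]; simp [para]
  simp only [para, mem_insert, mem_singleton] at m1 m2 m3 m5 m6 m7
  have hab : a = b := by omega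
  subst hab
  have hxu : x = u := by omega
  subst hxu
  have hyv : y = v := by omega
  subst hyv
  rfl

/-- Parameters of the parallelograms used in the lower bound. -/
noncomputable def params (h : ℕ) : Finset (ℤ × ℤ × ℤ) :=
  (Finset.Ico 0 (2 * (h : ℤ))) ×ˢ ((Finset.Icc 1 (h : ℤ)) ×ˢ (Finset.Icc (2 * (h : ℤ) + 1) (3 * h)))

lemma params_card (h : ℕ) : (params h).card = 2 * h ^ 3 := by
  unfold params
  rw [Finset.card_product, Finset.card_product, Int.card_Ico, Int.card_Icc, Int.card_Icc]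
  have e1 : (2 * (h : ℤ) - 0).toNat = 2 * h := by omega
  have e2 : ((h : ℤ) + 1 - 1).toNat = h := by omega
  have e3 : (3 * (h : ℤ) + 1 - (2 * (h : ℤ) + 1)).toNat = h := by omega
  rw [e1, e2, e3]
  ring

/-- Many sets with `s (s - 1) - 3` differences. -/
lemma lower_para (n s h : ℕ) (hs : 4 ≤ s) (hn : 6 * h ≤ n) :
    2 * h ^ 3 * (n - ev s) ^ (s - 4) ≤ N n (s * (s - 1) - 3) * (s - 4).factorial := by
  classical
  have hpar : ∀ q ∈ params h, 0 < q.2.1 ∧ q.2.1 < q.2.2 ∧ q.2.2 ≠ 2 * q.2.1 ∧ 0 ≤ q.1 ∧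
      q.1 + q.2.1 + q.2.2 < n := by
    rintro ⟨a, x, y⟩ hq
    simp only [params, mem_product, mem_Ico, mem_Icc] at hq
    simp only
    omega
  have hI : ∀ q ∈ params h, para q ⊆ I n := by
    intro q hq w hw
    obtain ⟨h1, h2, h3, h4, h5⟩ := hpar q hq
    simp only [para, mem_insert, mem_singleton] at hw
    unfold I
    rw [Finset.mem_Ico]
    omega
  have hG : ∀ q ∈ params h, (n - ev s) ^ (s - 4) ≤ (G n (para q) s).card * (s - 4).factorial := by
    intro q hq
    obtain ⟨h1, h2, h3, h4, h5⟩ := hpar q hq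
    have hc := para_card h1 h2
    have h6 := G_lower n (para q) (hI q hq) s (s - 4) (by omega)
    rw [hc] at h6
    have e : 4 + (s - 4) = s := by omega
    rw [e] at h6
    exact h6
  have hdisj : Set.PairwiseDisjoint (params h : Set (ℤ × ℤ × ℤ)) (fun q => G n (para q) s) := by
    intro q hq r hr hne
    rw [Function.onFun, Finset.disjoint_left]
    intro S hSq hSr
    obtain ⟨q1, q2, q3, q4, q5⟩ := hpar q hq
    obtain ⟨r1, r2, r3, r4, r5⟩ := hpar r hr
    have hsub : ∀ q' r' : ℤ × ℤ × ℤ, 0 < q'.2.1 → q'.2.1 < q'.2.2 → S ∈ G n (para q') s →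
        S ∈ G n (para r') s → para q' ⊆ para r' := by
      intro q' r' k1 k2 hq' hr'
      obtain ⟨-, -, hA, -⟩ := mem_G.mp hq'
      obtain ⟨-, -, -, hin⟩ := mem_G.mp hr'
      have m1 : q'.1 ∈ S := hA (by simp [para])
      have m2 : q'.1 + q'.2.1 ∈ S := hA (by simp [para])
      have m3 : q'.1 + q'.2.2 ∈ S := hA (by simp [para])
      have m4 : q'.1 + q'.2.1 + q'.2.2 ∈ S := hA (by simp [para])
      obtain ⟨g1, g2, g3, g4⟩ := hin _ m1 _ m4 _ m2 _ m3 (by ring) (by omega) (by omega)
      intro w hw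
      simp only [para, mem_insert, mem_singleton] at hw
      rcases hw with rfl | rfl | rfl | rfl <;> assumption
    apply hne
    apply para_inj q1 q2 r1 r2
    exact Finset.Subset.antisymm (hsub q r q1 q2 hSq hSr) (hsub r q r1 r2 hSr hSq)
  have hsubN : (params h).biUnion (fun q => G n (para q) s) ⊆
      (I n).powerset.filter (fun S => (diffs S).card = s * (s - 1) - 3) := by
    intro S hS
    obtain ⟨q, hq, hSq⟩ := Finset.mem_biUnion.mp hS
    obtain ⟨h1, h2, h3, h4, h5⟩ := hpar q hq
    have hd := diffs_of_G (by omega) hSq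
    rw [para_card h1 h2, para_Dp_card h1 h2 h3] at hd
    rw [Finset.mem_filter, Finset.mem_powerset]
    refine ⟨(mem_G.mp hSq).1, ?_⟩
    have : 4 * 3 ≤ s * (s - 1) := Nat.mul_le_mul hs (by omega)
    omega
  have h7 : ∑ q ∈ params h, (G n (para q) s).card ≤ N n (s * (s - 1) - 3) := by
    rw [← Finset.card_biUnion hdisj]
    exact Finset.card_le_card hsubN
  calc 2 * h ^ 3 * (n - ev s) ^ (s - 4) = ∑ q ∈ params h, (n - ev s) ^ (s - 4) := by
        rw [Finset.sum_const, params_card, smul_eq_mul]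
    _ ≤ ∑ q ∈ params h, (G n (para q) s).card * (s - 4).factorial := Finset.sum_le_sum hG
    _ = (∑ q ∈ params h, (G n (para q) s).card) * (s - 4).factorial := by
        rw [Finset.sum_mul]
    _ ≤ _ := Nat.mul_le_mul_right _ h7


/-! ### Conclusion -/

lemma N_even (n m : ℕ) (hm : m % 2 = 0) (h0 : m ≠ 0) : N n m = 0 := by
  unfold N
  rw [Finset.card_eq_zero, Finset.filter_eq_empty_iff]
  intro S _ hS
  rcases S.eq_empty_or_nonempty with rfl | hne
  · simp [diffs] at hS
    omega
  · have := card_diffs hne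
    omega

/-- Comparison of counts for large `n`. -/
lemma compare (s : ℕ) (hs : 200 ≤ s) : ∃ n₀ : ℕ, ∀ n ≥ n₀,
    0 < N n (s * (s - 1) - 1) ∧ N n (s * (s - 1) - 1) < N n (s * (s - 1) - 3) ∧
    N n (s * (s - 1) - 1) < N n (s * (s - 1) + 1) := by
  set K := ev s with hK
  set C := 2 ^ (ev^[s * (s - 1) + 3] (s - 2)) * (s - 3).factorial with hC
  have hKs : s ≤ K := by rw [hK]; unfold ev; omega
  refine ⟨42 + 10 * s * K + 100 * C + 4 * s.factorial, ?_⟩
  intro n hn
  have hn1 : 42 ≤ n := by omega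
  have hn2 : 10 * s * K ≤ n := by omega
  have hn3 : 100 * C ≤ n := by omega
  have hn4 : 4 * s.factorial ≤ n := by omega
  have hKn : K < n := by nlinarith
  have hsn : s ≤ n := by omega
  have hnR : (0 : ℝ) < n := by exact_mod_cast (by omega : 0 < n)
  have hup := upper n s (by omega) hsn
  rw [← hC] at hup
  have hupR : (N n (s * (s - 1) - 1) : ℝ) * ((s - 3).factorial : ℝ) ≤
      (n : ℝ) ^ (s - 1) + (n : ℝ) ^ (s - 2) * (C : ℝ) := by exact_mod_cast hup
  -- the error term
  have hCn : (n : ℝ) ^ (s - 2) * (C : ℝ) ≤ (n : ℝ) ^ (s - 1) / 100 := by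
    have e : s - 1 = (s - 2) + 1 := by omega
    rw [e, pow_succ]
    have : (100 : ℝ) * C ≤ n := by exact_mod_cast hn3
    have hp : (0 : ℝ) < (n : ℝ) ^ (s - 2) := by positivity
    nlinarith
  have hup2 : (N n (s * (s - 1) - 1) : ℝ) * ((s - 3).factorial : ℝ) ≤
      (101 / 100) * (n : ℝ) ^ (s - 1) := by linarith
  -- powers of `n - K`
  have hbern : ∀ j : ℕ, j ≤ s → (9 / 10 : ℝ) * (n : ℝ) ^ j ≤ ((n - K : ℕ) : ℝ) ^ j := by
    intro j hj
    rw [Nat.cast_sub hKn.le]
    have h1 : (n : ℝ) - K = n * (1 + (-(K : ℝ) / n)) := by field_simp; ring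
    rw [h1, mul_pow]
    have hKn' : (10 : ℝ) * s * K ≤ n := by exact_mod_cast hn2
    have h2 : (j : ℝ) * K ≤ s * K := by
      have : (j : ℝ) ≤ s := by exact_mod_cast hj
      exact mul_le_mul_of_nonneg_right this (Nat.cast_nonneg _)
    have h3 : (j : ℝ) * ((K : ℝ) / n) ≤ 1 / 10 := by
      rw [← mul_div_assoc, div_le_iff₀ hnR]
      linarith
    have h4 : (-2 : ℝ) ≤ -(K : ℝ) / n := by
      rw [le_div_iff₀ hnR]
      have : (K : ℝ) < n := by exact_mod_cast hKn
      linarith
    have h5 := one_add_mul_le_pow h4 j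
    have h6 : (9 / 10 : ℝ) ≤ (1 + -(K : ℝ) / n) ^ j := by
      refine le_trans ?_ h5
      have : (j : ℝ) * (-(K : ℝ) / n) = -((j : ℝ) * ((K : ℝ) / n)) := by ring
      rw [this]
      linarith
    have h7 : (0 : ℝ) ≤ (n : ℝ) ^ j := by positivity
    calc (9 / 10 : ℝ) * (n : ℝ) ^ j = (n : ℝ) ^ j * (9 / 10) := by ring
      _ ≤ _ := mul_le_mul_of_nonneg_left h6 h7
  refine ⟨attained n s (by omega) hKn, ?_, ?_⟩
  · -- comparison with parallelograms
    have hlow := lower_para n s (n / 6) (by omega) (by omega)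
    rw [← hK] at hlow
    have hlowR : 2 * ((n / 6 : ℕ) : ℝ) ^ 3 * ((n - K : ℕ) : ℝ) ^ (s - 4) ≤
        (N n (s * (s - 1) - 3) : ℝ) * ((s - 4).factorial : ℝ) := by exact_mod_cast hlow
    have hh : (n : ℝ) / 7 ≤ ((n / 6 : ℕ) : ℝ) := by
      rw [div_le_iff₀ (by norm_num)]
      have : n ≤ n / 6 * 7 := by omega
      exact_mod_cast this
    have hh3 : ((n : ℝ) / 7) ^ 3 ≤ ((n / 6 : ℕ) : ℝ) ^ 3 := by
      apply pow_le_pow_left₀ (by positivity) hh
    have hb := hbern (s - 4) (by omega)
    have e1 : (n : ℝ) ^ (s - 1) = (n : ℝ) ^ 3 * (n : ℝ) ^ (s - 4) := by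
      rw [← pow_add]
      congr 1
      omega
    have hlow2 : (18 / 3430 : ℝ) * (n : ℝ) ^ (s - 1) ≤
        (N n (s * (s - 1) - 3) : ℝ) * ((s - 4).factorial : ℝ) := by
      refine le_trans ?_ hlowR
      rw [e1]
      calc (18 / 3430 : ℝ) * ((n : ℝ) ^ 3 * (n : ℝ) ^ (s - 4))
          = (2 * ((n : ℝ) / 7) ^ 3) * ((9 / 10) * (n : ℝ) ^ (s - 4)) := by ring
        _ ≤ (2 * ((n / 6 : ℕ) : ℝ) ^ 3) * ((n - K : ℕ) : ℝ) ^ (s - 4) := by
            apply mul_le_mul _ hb (by positivity) (by positivity)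
            linarith
    have hfact : ((s - 3).factorial : ℝ) = ((s : ℝ) - 3) * ((s - 4).factorial : ℝ) := by
      have e : s - 3 = (s - 4) + 1 := by omega
      rw [e, Nat.factorial_succ]
      push_cast
      rw [Nat.cast_sub (by omega : 4 ≤ s)]
      push_cast
      ring
    have hs3 : (197 : ℝ) ≤ (s : ℝ) - 3 := by
      have : (200 : ℝ) ≤ s := by exact_mod_cast hs
      linarith
    have hf4 : (0 : ℝ) < ((s - 4).factorial : ℝ) := by exact_mod_cast Nat.factorial_pos _
    have hnp : (0 : ℝ) < (n : ℝ) ^ (s - 1) := by positivity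
    have hfinal : (N n (s * (s - 1) - 1) : ℝ) * ((s - 3).factorial : ℝ) <
        (N n (s * (s - 1) - 3) : ℝ) * ((s - 3).factorial : ℝ) := by
      refine lt_of_le_of_lt hup2 ?_
      rw [hfact]
      calc (101 / 100 : ℝ) * (n : ℝ) ^ (s - 1) < 197 * ((18 / 3430 : ℝ) * (n : ℝ) ^ (s - 1)) := by
            nlinarith
        _ ≤ ((s : ℝ) - 3) * ((N n (s * (s - 1) - 3) : ℝ) * ((s - 4).factorial : ℝ)) := by
            apply mul_le_mul hs3 hlow2 (by positivity) (by linarith)
        _ = _ := by ring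
    have hlt := lt_of_mul_lt_mul_right hfinal (by positivity)
    exact_mod_cast hlt
  · have hlow := lower_sidon n s (by omega)
    rw [← hK] at hlow
    have hlowR : ((n - K : ℕ) : ℝ) ^ s ≤ (N n (s * (s - 1) + 1) : ℝ) * (s.factorial : ℝ) := by
      exact_mod_cast hlow
    have hb := hbern s le_rfl
    have hNle : (N n (s * (s - 1) - 1) : ℝ) ≤ (101 / 100) * (n : ℝ) ^ (s - 1) := by
      have h1 : (1 : ℝ) ≤ ((s - 3).factorial : ℝ) := by
        exact_mod_cast Nat.succ_le_of_lt (Nat.factorial_pos _)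
      have h2 : (0 : ℝ) ≤ (N n (s * (s - 1) - 1) : ℝ) := Nat.cast_nonneg _
      nlinarith
    have hfpos : (0 : ℝ) < (s.factorial : ℝ) := by exact_mod_cast Nat.factorial_pos _
    have hfn : (4 : ℝ) * s.factorial ≤ n := by exact_mod_cast hn4
    have e1 : (n : ℝ) ^ s = (n : ℝ) ^ (s - 1) * n := by
      rw [← pow_succ]
      congr 1
      omega
    have hnp : (0 : ℝ) < (n : ℝ) ^ (s - 1) := by positivity
    have hfinal : (N n (s * (s - 1) - 1) : ℝ) * (s.factorial : ℝ) <
        (N n (s * (s - 1) + 1) : ℝ) * (s.factorial : ℝ) := by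
      calc (N n (s * (s - 1) - 1) : ℝ) * (s.factorial : ℝ)
          ≤ ((101 / 100) * (n : ℝ) ^ (s - 1)) * (s.factorial : ℝ) :=
            mul_le_mul_of_nonneg_right hNle hfpos.le
        _ ≤ ((101 / 100) * (n : ℝ) ^ (s - 1)) * (n / 4) := by
            apply mul_le_mul_of_nonneg_left _ (by positivity)
            linarith
        _ < (9 / 10 : ℝ) * (n : ℝ) ^ s := by
            rw [e1]
            have : 0 < (n : ℝ) ^ (s - 1) * n := by positivity
            nlinarith
        _ ≤ ((n - K : ℕ) : ℝ) ^ s := hb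
        _ ≤ _ := hlowR
    have hlt := lt_of_mul_lt_mul_right hfinal hfpos.le
    exact_mod_cast hlt

lemma divot (s : ℕ) (hs : 200 ≤ s) : ∃ n₀ : ℕ, ∀ n ≥ n₀, HasDivot (P n) (s * (s - 1) - 1) := by
  obtain ⟨n₀, h⟩ := compare s hs
  refine ⟨n₀, ?_⟩
  intro n hn
  obtain ⟨h1, h2, h3⟩ := h n hn
  have hp : (0 : ℝ) < 2 ^ n := by positivity
  have hss : 200 * 199 ≤ s * (s - 1) := Nat.mul_le_mul hs (by omega)
  have heven : s * (s - 1) % 2 = 0 := by
    have := Nat.even_mul_pred_self s
    rwa [Nat.even_iff] at this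
  have hlt : ∀ a b : ℕ, N n a < N n b → P n a < P n b := by
    intro a b hab
    unfold P
    apply div_lt_div_of_pos_right _ hp
    exact_mod_cast hab
  have hzero : ∀ l, N n l = 0 → P n l = 0 := by
    intro l hl
    unfold P
    rw [hl]
    simp
  have hpos : 0 < P n (s * (s - 1) - 1) := by
    unfold P
    apply div_pos _ hp
    exact_mod_cast h1
  refine ⟨hpos, s * (s - 1) - 3, s * (s - 1) + 1, by omega, by omega, ?_, ?_, ?_, ?_, ?_, ?_⟩
  · exact (hpos.trans (hlt _ _ h2)).ne'
  · exact (hpos.trans (hlt _ _ h3)).ne'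
  · intro l hl1 hl2
    have : l = s * (s - 1) - 2 := by omega
    rw [this]
    exact hzero _ (N_even _ _ (by omega) (by omega))
  · intro l hl1 hl2
    have : l = s * (s - 1) := by omega
    rw [this]
    exact hzero _ (N_even _ _ heven (by omega))
  · exact hlt _ _ h2
  · exact hlt _ _ h3

lemma not_form (s : ℕ) (hs : 4 ≤ s) (k : ℕ) : s * (s - 1) - 1 ≠ k * (k - 1) + 3 := by
  intro h
  have h0 : 4 * 3 ≤ s * (s - 1) := Nat.mul_le_mul hs (by omega)
  rcases Nat.lt_or_ge k s with h1 | h1
  · have h2 : k * (k - 1) ≤ (s - 1) * (s - 2) := Nat.mul_le_mul (by omega) (by omega)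
    have h3 : (s - 1) * (s - 2) + 2 * (s - 1) = s * (s - 1) := by
      obtain ⟨t, rfl⟩ : ∃ t, s = t + 2 := ⟨s - 2, by omega⟩
      simp only [Nat.add_sub_cancel, Nat.reduceSubDiff]
      ring
    omega
  · have h2 : s * (s - 1) ≤ k * (k - 1) := Nat.mul_le_mul h1 (by omega)
    omega

/-- For every `s ≥ 200` and all sufficiently large `n`, the sequence `m ↦ Pr (|S - S| = m)` has a
divot at `s (s - 1) - 1`, and this number is not of the form `k (k - 1) + 3`.  In particular the
conjunction of the two parts (a) and (b) of the question is false, because (b) is false. -/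
theorem result :
    (∀ s : ℕ, 200 ≤ s → (∀ k : ℕ, s * (s - 1) - 1 ≠ k * (k - 1) + 3) ∧
      ∃ n₀ : ℕ, ∀ n ≥ n₀, HasDivot (P n) (s * (s - 1) - 1)) ∧
    ¬ (∃ n₀ : ℕ, ∀ n ≥ n₀, ∀ i : ℕ, HasDivot (P n) i → ∃ k : ℕ, 2 ≤ k ∧ i = k * (k - 1) + 3) ∧
    ¬ ((∀ k : ℕ, 2 ≤ k → ∃ n₀ : ℕ, ∀ n ≥ n₀, HasDivot (P n) (k * (k - 1) + 3)) ∧
      (∃ n₀ : ℕ, ∀ n ≥ n₀, ∀ i : ℕ, HasDivot (P n) i →
        ∃ k : ℕ, 2 ≤ k ∧ i = k * (k - 1) + 3)) := by
  have h1 : ∀ s : ℕ, 200 ≤ s → (∀ k : ℕ, s * (s - 1) - 1 ≠ k * (k - 1) + 3) ∧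
      ∃ n₀ : ℕ, ∀ n ≥ n₀, HasDivot (P n) (s * (s - 1) - 1) :=
    fun s hs => ⟨not_form s (by omega), divot s hs⟩
  have h2 : ¬ (∃ n₀ : ℕ, ∀ n ≥ n₀, ∀ i : ℕ, HasDivot (P n) i →
      ∃ k : ℕ, 2 ≤ k ∧ i = k * (k - 1) + 3) := by
    rintro ⟨n₀, h⟩
    obtain ⟨hne, n₁, hn₁⟩ := h1 200 le_rfl
    obtain ⟨k, -, hk⟩ := h (max n₀ n₁) (le_max_left _ _) _ (hn₁ _ (le_max_right _ _))
    exact hne k hk
  exact ⟨h1, h2, fun h => h2 h.2⟩

end Pool.Agent.Results.MP_d8403e_co.ExtraDivots
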